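import Mathlib
import Pool.Agent.MP_2b113a_an.H33.Defs

/-!
From the uniform estimate to an invariant positive vector.
-/

namespace Pool.Agent.MP_2b113a_an.H76

open MeasureTheory Filter Topology Pool.Agent.MP_2b113a_an.H33
open scoped ENNReal NNReal InnerProductSpace

/-! ### Property (T) on the complement of the invariant vectors -/

section Perp

variable {Γ : Type} [Group Γ] {H : Type} [NormedAddCommGroup H] [InnerProductSpace ℝ H]

/-- The invariant vectors. -/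
def fixS (π : Γ →* (H ≃ₗᵢ[ℝ] H)) : Submodule ℝ H where
  carrier := {v | ∀ g, π g v = v}
  add_mem' := fun {a b} ha hb g => by rw [map_add, ha g, hb g]
  zero_mem' := fun g => map_zero _
  smul_mem' := fun c a ha g => by rw [map_smul, ha g]

theorem mem_fixS {π : Γ →* (H ≃ₗᵢ[ℝ] H)} {v : H} : v ∈ fixS π ↔ ∀ g, π g v = v := Iff.rfl

theorem isClosed_fixS (π : Γ →* (H ≃ₗᵢ[ℝ] H)) : IsClosed (fixS π : Set H) := by
  have : (fixS π : Set H) = ⋂ g, {v | π g v = v} := by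
    ext v
    simp [mem_fixS]
  rw [this]
  exact isClosed_iInter fun g => isClosed_eq (π g).continuous continuous_id

theorem pi_mul (π : Γ →* (H ≃ₗᵢ[ℝ] H)) (g h : Γ) (v : H) : π (g * h) v = π g (π h v) := by
  rw [map_mul]
  rfl

theorem pi_one (π : Γ →* (H ≃ₗᵢ[ℝ] H)) (v : H) : π 1 v = v := by
  rw [map_one]
  rfl

theorem perp_stable (π : Γ →* (H ≃ₗᵢ[ℝ] H)) (g : Γ) {w : H} (hw : w ∈ (fixS π)ᗮ) :
    π g w ∈ (fixS π)ᗮ := by
  intro v hv
  have h1 : ⟪π g v, π g w⟫_ℝ = ⟪v, w⟫_ℝ := (π g).inner_map_map v w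
  rw [hv g] at h1
  rw [h1]
  exact hw v hv

/-- The restriction of one operator to the complement of the invariant vectors. -/
def resOne (π : Γ →* (H ≃ₗᵢ[ℝ] H)) (g : Γ) : (fixS π)ᗮ ≃ₗᵢ[ℝ] (fixS π)ᗮ where
  toFun w := ⟨π g w, perp_stable π g w.2⟩
  invFun w := ⟨π g⁻¹ w, perp_stable π g⁻¹ w.2⟩
  map_add' a b := Subtype.ext (map_add _ _ _)
  map_smul' c a := Subtype.ext (map_smul _ _ _)
  left_inv w := Subtype.ext (by
    show π g⁻¹ (π g w) = w
    rw [← pi_mul, inv_mul_cancel, pi_one])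
  right_inv w := Subtype.ext (by
    show π g (π g⁻¹ w) = w
    rw [← pi_mul, mul_inv_cancel, pi_one])
  norm_map' w := (π g).norm_map w

/-- The restriction of the representation. -/
def res (π : Γ →* (H ≃ₗᵢ[ℝ] H)) : Γ →* ((fixS π)ᗮ ≃ₗᵢ[ℝ] (fixS π)ᗮ) where
  toFun := resOne π
  map_one' := LinearIsometryEquiv.ext fun w => Subtype.ext (pi_one π w)
  map_mul' g h := LinearIsometryEquiv.ext fun w => Subtype.ext (pi_mul π g h w)

theorem propT_perp [CompleteSpace H] (hT : PropT Γ) (π : Γ →* (H ≃ₗᵢ[ℝ] H)) (ζ : ℕ → H)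
    (h1 : ∀ k, ‖ζ k‖ = 1) (h2 : ∀ g, Tendsto (fun k => ‖π g (ζ k) - ζ k‖) atTop (𝓝 0))
    (h3 : ∀ k, ζ k ∈ (fixS π)ᗮ) : False := by
  obtain ⟨v, hv0, hv⟩ := hT (fixS π)ᗮ (res π) (fun k => ⟨ζ k, h3 k⟩) h1 h2
  apply hv0
  have hm : (v : H) ∈ fixS π := fun g => congrArg Subtype.val (hv g)
  have : ⟪(v : H), (v : H)⟫_ℝ = 0 := v.2 _ hm
  exact Subtype.ext (inner_self_eq_zero.1 this)

end Perp

/-! ### Squares, absolute values and cut-offs in the space of square integrable functions -/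

section L2

variable {X : Type} [MeasurableSpace X] {μ : Measure X}

theorem inner_eq (u v : Lp ℝ 2 μ) : ⟪u, v⟫_ℝ = ∫ x, u x * v x ∂μ := by
  rw [L2.inner_def]
  refine integral_congr_ae (Eventually.of_forall fun x => ?_)
  simp [mul_comm]

theorem norm_sq_eq (u : Lp ℝ 2 μ) : ‖u‖ ^ 2 = ∫ x, u x * u x ∂μ := by
  rw [← real_inner_self_eq_norm_sq, inner_eq]

/-- The pointwise product. -/
noncomputable def pr (u v : Lp ℝ 2 μ) : Lp ℝ 1 μ := (ContinuousLinearMap.mul ℝ ℝ).holder 1 u v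

theorem pr_ae (u v : Lp ℝ 2 μ) : ∀ᵐ x ∂μ, pr u v x = u x * v x := by
  filter_upwards [(ContinuousLinearMap.mul ℝ ℝ).coeFn_holder (r := 1) u v] with x hx
  exact hx

theorem norm_pr_le (u v : Lp ℝ 2 μ) : ‖pr u v‖ ≤ ‖u‖ * ‖v‖ := by
  have h := (ContinuousLinearMap.mul ℝ ℝ).norm_holder_apply_apply_le (r := 1) u v
  have h2 : ‖ContinuousLinearMap.mul ℝ ℝ‖ ≤ 1 := ContinuousLinearMap.opNorm_mul_le ℝ ℝ
  calc ‖pr u v‖ ≤ ‖ContinuousLinearMap.mul ℝ ℝ‖ * ‖u‖ * ‖v‖ := h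
    _ ≤ 1 * ‖u‖ * ‖v‖ := by gcongr
    _ = ‖u‖ * ‖v‖ := by ring

theorem integrable_mul (u v : Lp ℝ 2 μ) : Integrable (fun x => u x * v x) μ :=
  (L1.integrable_coeFn (pr u v)).congr (pr_ae u v)

theorem pr_sub (u v : Lp ℝ 2 μ) : pr u u - pr v v = pr (u - v) (u + v) := by
  apply Lp.ext
  filter_upwards [Lp.coeFn_sub (pr u u) (pr v v), pr_ae u u, pr_ae v v, pr_ae (u - v) (u + v),
    Lp.coeFn_sub u v, Lp.coeFn_add u v] with x h1 h2 h3 h4 h5 h6
  rw [h1, h4, h5, h6, Pi.sub_apply, h2, h3, Pi.sub_apply, Pi.add_apply]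
  ring

theorem norm_pr_sub_le (u v : Lp ℝ 2 μ) (hu : ‖u‖ = 1) (hv : ‖v‖ = 1) :
    ‖pr u u - pr v v‖ ≤ 2 * ‖u - v‖ := by
  rw [pr_sub]
  have h : ‖u + v‖ ≤ 2 := by
    have := norm_add_le u v
    linarith
  calc ‖pr (u - v) (u + v)‖ ≤ ‖u - v‖ * ‖u + v‖ := norm_pr_le _ _
    _ ≤ ‖u - v‖ * 2 := by gcongr
    _ = 2 * ‖u - v‖ := by ring

theorem norm_abs_sub_sq_le (u v : Lp ℝ 2 μ) : ‖|u| - |v|‖ ^ 2 ≤ ‖pr u u - pr v v‖ := by
  rw [norm_sq_eq, L1.norm_eq_integral_norm]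
  refine integral_mono_ae (integrable_mul _ _) (L1.integrable_coeFn _).norm ?_
  filter_upwards [Lp.coeFn_sub (pr u u) (pr v v), pr_ae u u, pr_ae v v, Lp.coeFn_sub |u| |v|,
    Lp.coeFn_abs u, Lp.coeFn_abs v] with x h1 h2 h3 h4 h5 h6
  rw [h1, h4, Pi.sub_apply, Pi.sub_apply, h2, h3, h5, h6, Real.norm_eq_abs]
  have ha := abs_nonneg (u x)
  have hb := abs_nonneg (v x)
  have e1 : u x * u x = |u x| * |u x| := (abs_mul_abs_self _).symm
  have e2 : v x * v x = |v x| * |v x| := (abs_mul_abs_self _).symm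
  rw [e1, e2]
  rcases le_total |u x| |v x| with h | h
  · refine le_trans ?_ (neg_le_abs _)
    nlinarith
  · refine le_trans ?_ (le_abs_self _)
    nlinarith

theorem norm_abs' (u : Lp ℝ 2 μ) : ‖|u|‖ = ‖u‖ := norm_abs_eq_norm u

/-- Multiplication by the indicator of a measurable set. -/
noncomputable def cut {Z : Set X} (hZ : MeasurableSet Z) (u : Lp ℝ 2 μ) : Lp ℝ 2 μ :=
  ((Lp.memLp u).indicator hZ).toLp _

theorem cut_ae {Z : Set X} (hZ : MeasurableSet Z) (u : Lp ℝ 2 μ) :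
    ∀ᵐ x ∂μ, cut hZ u x = Z.indicator u x :=
  MemLp.coeFn_toLp _

theorem norm_cut_sub_le {Z : Set X} (hZ : MeasurableSet Z) (u v : Lp ℝ 2 μ) :
    ‖cut hZ u - cut hZ v‖ ≤ ‖u - v‖ := by
  apply Lp.norm_le_norm_of_ae_le
  filter_upwards [Lp.coeFn_sub (cut hZ u) (cut hZ v), cut_ae hZ u, cut_ae hZ v,
    Lp.coeFn_sub u v] with x h1 h2 h3 h4
  rw [h1, h4, Pi.sub_apply, Pi.sub_apply, h2, h3]
  by_cases hx : x ∈ Z
  · simp [hx]
  · simp [hx]

theorem memLp_mix (a b : ℝ) (ha : 0 ≤ a) (hb : 0 ≤ b) (hab : a + b = 1) (u v : Lp ℝ 2 μ) :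
    MemLp (fun x => √(a * (u x * u x) + b * (v x * v x))) 2 μ := by
  refine MemLp.of_le ((Lp.memLp u).abs.add (Lp.memLp v).abs) ?_ (Eventually.of_forall fun x => ?_)
  · have hu := Lp.aestronglyMeasurable u
    have hv := Lp.aestronglyMeasurable v
    exact Real.continuous_sqrt.comp_aestronglyMeasurable
      (((hu.mul hu).const_mul a).add ((hv.mul hv).const_mul b))
  · have h1 := abs_nonneg (u x)
    have h2 := abs_nonneg (v x)
    have e1 : u x * u x = |u x| * |u x| := (abs_mul_abs_self _).symm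
    have e2 : v x * v x = |v x| * |v x| := (abs_mul_abs_self _).symm
    have h3 : √(a * (u x * u x) + b * (v x * v x)) ≤ |u x| + |v x| := by
      rw [Real.sqrt_le_iff]
      refine ⟨by positivity, ?_⟩
      rw [e1, e2]
      have : a ≤ 1 := by linarith
      have : b ≤ 1 := by linarith
      nlinarith [mul_nonneg h1 h1, mul_nonneg h2 h2, mul_nonneg h1 h2]
    rw [Real.norm_eq_abs, abs_of_nonneg (Real.sqrt_nonneg _), Real.norm_eq_abs]
    exact h3.trans (le_abs_self _)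

/-- The quadratic mean of two functions. -/
noncomputable def mix (a b : ℝ) (ha : 0 ≤ a) (hb : 0 ≤ b) (hab : a + b = 1) (u v : Lp ℝ 2 μ) :
    Lp ℝ 2 μ := (memLp_mix a b ha hb hab u v).toLp _

theorem mix_ae (a b : ℝ) (ha : 0 ≤ a) (hb : 0 ≤ b) (hab : a + b = 1) (u v : Lp ℝ 2 μ) :
    ∀ᵐ x ∂μ, mix a b ha hb hab u v x * mix a b ha hb hab u v x =
      a * (u x * u x) + b * (v x * v x) := by
  filter_upwards [MemLp.coeFn_toLp (memLp_mix a b ha hb hab u v)] with x hx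
  have : mix a b ha hb hab u v x = √(a * (u x * u x) + b * (v x * v x)) := hx
  rw [this]
  exact Real.mul_self_sqrt
    (add_nonneg (mul_nonneg ha (mul_self_nonneg _)) (mul_nonneg hb (mul_self_nonneg _)))

theorem pr_of_ae {a b : ℝ} {u v w : Lp ℝ 2 μ}
    (h : ∀ᵐ x ∂μ, w x * w x = a * (u x * u x) + b * (v x * v x)) :
    pr w w = a • pr u u + b • pr v v := by
  apply Lp.ext
  filter_upwards [h, pr_ae w w, pr_ae u u, pr_ae v v, Lp.coeFn_add (a • pr u u) (b • pr v v),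
    Lp.coeFn_smul a (pr u u), Lp.coeFn_smul b (pr v v)] with x h1 h2 h3 h4 h5 h6 h7
  rw [h5, Pi.add_apply, h6, h7, Pi.smul_apply, Pi.smul_apply, h2, h3, h4, h1, smul_eq_mul,
    smul_eq_mul]

theorem norm_of_ae {a b : ℝ} (hab : a + b = 1) {u v w : Lp ℝ 2 μ} (hu : ‖u‖ = 1) (hv : ‖v‖ = 1)
    (h : ∀ᵐ x ∂μ, w x * w x = a * (u x * u x) + b * (v x * v x)) : ‖w‖ = 1 := by
  have h1 : ‖w‖ ^ 2 = 1 := by
    rw [norm_sq_eq, integral_congr_ae h, integral_add ((integrable_mul u u).const_mul a)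
      ((integrable_mul v v).const_mul b), integral_const_mul, integral_const_mul, ← norm_sq_eq,
      ← norm_sq_eq, hu, hv]
    linarith
  have := norm_nonneg w
  nlinarith

end L2

/-! ### The Koopman representation -/

section Koopman

variable {Γ : Type} [Group Γ] {X : Type} [MeasurableSpace X] [MulAction Γ X] {μ : Measure X}
  (K : Koop Γ μ)

include K in
theorem ae_shift (g : Γ) {p : X → Prop} (h : ∀ᵐ x ∂μ, p x) : ∀ᵐ x ∂μ, p (g • x) :=
  (K.qmp g).ae h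

theorem pi_abs (g : Γ) (u : Lp ℝ 2 μ) : K.π g |u| = |K.π g u| := by
  apply Lp.ext
  filter_upwards [K.π_ae g |u|, K.π_ae g u, K.r_pos g, Lp.coeFn_abs (K.π g u),
    ae_shift K g⁻¹ (Lp.coeFn_abs u)] with x h1 h2 h3 h4 h5
  rw [h1, h4, h2, h5, abs_mul, abs_of_pos h3]

theorem zero_inv {f : Lp ℝ 2 μ} (hf : f ∈ fixS K.π) (g : Γ) :
    ∀ᵐ x ∂μ, f (g⁻¹ • x) = 0 ↔ f x = 0 := by
  have h := K.π_ae g f
  rw [hf g] at h
  filter_upwards [h, K.r_pos g] with x h1 h2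
  rw [h1]
  simp [h2.ne']

theorem pi_cut {f : Lp ℝ 2 μ} (hf : f ∈ fixS K.π) (hZ : MeasurableSet {x | f x = 0}) (g : Γ)
    (u : Lp ℝ 2 μ) : K.π g (cut hZ u) = cut hZ (K.π g u) := by
  apply Lp.ext
  filter_upwards [K.π_ae g (cut hZ u), K.π_ae g u, cut_ae hZ (K.π g u),
    ae_shift K g⁻¹ (cut_ae hZ u), zero_inv K hf g] with x h1 h2 h3 h4 h5
  rw [h1, h3, h4]
  by_cases hx : f x = 0
  · rw [Set.indicator_of_mem (show x ∈ {x | f x = 0} from hx),
      Set.indicator_of_mem (show g⁻¹ • x ∈ {x | f x = 0} from h5.2 hx), h2]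
  · rw [Set.indicator_of_notMem (show x ∉ {x | f x = 0} from hx),
      Set.indicator_of_notMem (show g⁻¹ • x ∉ {x | f x = 0} from fun h => hx (h5.1 h)), mul_zero]

/-- Unit vectors carried by the zero set of `f`. -/
def Car (f : Lp ℝ 2 μ) : Set (Lp ℝ 2 μ) := {ζ | ‖ζ‖ = 1 ∧ ∀ᵐ x ∂μ, f x ≠ 0 → ζ x = 0}

theorem car_pi {f : Lp ℝ 2 μ} (hf : f ∈ fixS K.π) (g : Γ) {ζ : Lp ℝ 2 μ} (hζ : ζ ∈ Car f) :
    K.π g ζ ∈ Car f := by
  refine ⟨by rw [LinearIsometryEquiv.norm_map, hζ.1], ?_⟩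
  filter_upwards [K.π_ae g ζ, ae_shift K g⁻¹ hζ.2, zero_inv K hf g] with x h1 h2 h3 hx
  rw [h1, h2 fun h => hx (h3.1 h), mul_zero]

theorem car_abs {f ζ : Lp ℝ 2 μ} (hζ : ζ ∈ Car f) : |ζ| ∈ Car f := by
  refine ⟨by rw [norm_abs', hζ.1], ?_⟩
  filter_upwards [Lp.coeFn_abs ζ, hζ.2] with x h1 h2 hx
  rw [h1, h2 hx, abs_zero]

theorem convex_img (f : Lp ℝ 2 μ) {ι : Type} (γ : ι → Γ) :
    Convex ℝ ((fun ζ : Lp ℝ 2 μ => fun i => pr (K.π (γ i) ζ) (K.π (γ i) ζ) - pr ζ ζ) '' Car f) := by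
  rintro _ ⟨u, hu, rfl⟩ _ ⟨v, hv, rfl⟩ a b ha hb hab
  have hw := mix_ae a b ha hb hab u v
  set w := mix a b ha hb hab u v
  refine ⟨w, ⟨norm_of_ae hab hu.1 hv.1 hw, ?_⟩, ?_⟩
  · filter_upwards [hw, hu.2, hv.2] with x h1 h2 h3 hx
    rw [h2 hx, h3 hx] at h1
    simpa using h1
  · funext i
    have h2 : pr (K.π (γ i) w) (K.π (γ i) w) = a • pr (K.π (γ i) u) (K.π (γ i) u) +
        b • pr (K.π (γ i) v) (K.π (γ i) v) := by
      apply pr_of_ae
      filter_upwards [K.π_ae (γ i) w, K.π_ae (γ i) u, K.π_ae (γ i) v, ae_shift K (γ i)⁻¹ hw]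
        with x h1 h2 h3 h4
      rw [h1, h2, h3]
      linear_combination K.r (γ i) x ^ 2 * h4
    simp only [Pi.add_apply, Pi.smul_apply]
    rw [h2, pr_of_ae hw, smul_sub, smul_sub]
    abel

/-- Almost invariant unit vectors carried by the zero set. -/
theorem exists_almost {f : Lp ℝ 2 μ} (hf : f ∈ fixS K.π) {h : ℕ → Γ} (hA : PropAM h)
    {ξ : Lp ℝ 2 μ} (hξ : ξ ∈ Car f) (hU : PropU K.π ξ h) {ι : Type} [Fintype ι] (γ : ι → Γ)
    {ε : ℝ} (hε : 0 < ε) : ∃ ζ ∈ Car f, ∀ i, ‖K.π (γ i) ζ - ζ‖ ≤ ε := by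
  classical
  by_cases hd : Disjoint (Metric.ball (0 : ι → Lp ℝ 1 μ) (ε ^ 2))
      ((fun ζ : Lp ℝ 2 μ => fun i => pr (K.π (γ i) ζ) (K.π (γ i) ζ) - pr ζ ζ) '' Car f)
  · exfalso
    obtain ⟨Φ, c, h1, h2⟩ := geometric_hahn_banach_open (convex_ball _ _) Metric.isOpen_ball
      (convex_img K f γ) hd
    have hc : 0 < c := by simpa using h1 0 (Metric.mem_ball_self (by positivity))
    set Ψ : (ι → Lp ℝ 1 μ) →L[ℝ] ℝ := c⁻¹ • Φ with hΨ
    have hs : ∀ (i : ι) (z : Lp ℝ 1 μ), |Ψ (Pi.single i z)| ≤ ‖Ψ‖ * ‖z‖ := fun i z => by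
      have := Ψ.le_opNorm (Pi.single i z)
      rwa [Pi.norm_single, Real.norm_eq_abs] at this
    have hn : ∀ g, ‖K.π g ξ‖ = 1 := fun g => (car_pi K hf g hξ).1
    refine hA ι (fun i g => Ψ (Pi.single i (pr (K.π g ξ) (K.π g ξ)))) γ ‖Ψ‖ (fun i g => ?_)
      (fun δ hδ => ?_) fun g => ?_
    · refine (hs i _).trans ?_
      have := norm_pr_le (K.π g ξ) (K.π g ξ)
      rw [hn g, mul_one] at this
      exact mul_le_of_le_one_right (norm_nonneg _) this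
    · obtain ⟨Q, hQ, hQ2⟩ := hU (δ / (2 * ‖Ψ‖ + 1)) (by positivity)
      refine ⟨Q, hQ, fun i a g => ?_⟩
      rw [← map_sub, ← Pi.single_sub]
      refine (hs i _).trans ?_
      have e : ‖K.π (a * h Q * a⁻¹ * g) ξ - K.π g ξ‖ ≤ δ / (2 * ‖Ψ‖ + 1) := by
        have e1 : a * h Q * a⁻¹ * g = g * (g⁻¹ * a * h Q * (g⁻¹ * a)⁻¹) := by group
        rw [e1, pi_mul, ← map_sub, LinearIsometryEquiv.norm_map]
        exact hQ2 _
      have e2 := norm_pr_sub_le _ _ (hn (a * h Q * a⁻¹ * g)) (hn g)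
      have e3 := norm_nonneg Ψ
      calc ‖Ψ‖ * ‖pr (K.π (a * h Q * a⁻¹ * g) ξ) (K.π (a * h Q * a⁻¹ * g) ξ) -
            pr (K.π g ξ) (K.π g ξ)‖ ≤ ‖Ψ‖ * (2 * (δ / (2 * ‖Ψ‖ + 1))) := by
            gcongr
            linarith
        _ = δ * (2 * ‖Ψ‖ / (2 * ‖Ψ‖ + 1)) := by ring
        _ ≤ δ * 1 := by
            gcongr
            rw [div_le_one (by positivity)]
            linarith
        _ = δ := mul_one _
    · have e := h2 _ ⟨K.π g ξ, car_pi K hf g hξ, rfl⟩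
      have e2 : ∑ i, (Ψ (Pi.single i (pr (K.π (γ i * g) ξ) (K.π (γ i * g) ξ))) -
          Ψ (Pi.single i (pr (K.π g ξ) (K.π g ξ)))) =
          Ψ fun i => pr (K.π (γ i) (K.π g ξ)) (K.π (γ i) (K.π g ξ)) -
            pr (K.π g ξ) (K.π g ξ) := by
        rw [← Finset.univ_sum_single (fun i => pr (K.π (γ i) (K.π g ξ)) (K.π (γ i) (K.π g ξ)) -
            pr (K.π g ξ) (K.π g ξ)), map_sum]
        refine Finset.sum_congr rfl fun i _ => ?_
        rw [← map_sub, ← Pi.single_sub, pi_mul]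
      rw [e2, hΨ, smul_apply, smul_eq_mul, ← div_eq_inv_mul, one_le_div hc]
      exact e
  · obtain ⟨_, hb, ζ, hζ, rfl⟩ := Set.not_disjoint_iff.1 hd
    refine ⟨|ζ|, car_abs hζ, fun i => ?_⟩
    rw [mem_ball_zero_iff] at hb
    have h1 := (norm_le_pi_norm _ i).trans hb.le
    have h2 := (norm_abs_sub_sq_le (K.π (γ i) ζ) ζ).trans h1
    rw [pi_abs]
    exact (pow_le_pow_iff_left₀ (norm_nonneg _) hε.le two_ne_zero).1 h2

variable [IsProbabilityMeasure μ]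

/-- The projection of the constant function on the invariant vectors. -/
theorem exists_proj : ∃ f ∈ fixS K.π, ∀ v ∈ fixS K.π, ∫ x, v x ∂μ = ∫ x, f x * v x ∂μ := by
  have : CompleteSpace (fixS K.π) := (isClosed_fixS K.π).completeSpace_coe
  let e : Lp ℝ 2 μ := (memLp_const (1 : ℝ)).toLp _
  have he : ∀ᵐ x ∂μ, e x = 1 := MemLp.coeFn_toLp _
  refine ⟨(fixS K.π).starProjection e, Submodule.starProjection_apply_mem _ _, fun v hv => ?_⟩
  have h := (fixS K.π).starProjection_inner_eq_zero e v hv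
  rw [inner_sub_left, sub_eq_zero, inner_eq, inner_eq] at h
  rw [← h]
  refine integral_congr_ae ?_
  filter_upwards [he] with x hx
  rw [hx, one_mul]

omit [IsProbabilityMeasure μ] in
theorem abs_fix {v : Lp ℝ 2 μ} (hv : v ∈ fixS K.π) : |v| ∈ fixS K.π := fun g => by
  rw [pi_abs, hv g]

theorem integrable_two (v : Lp ℝ 2 μ) : Integrable v μ :=
  (Lp.memLp v).integrable (by norm_num)

theorem proj_nonneg {f : Lp ℝ 2 μ} (hf : f ∈ fixS K.π)
    (hp : ∀ v ∈ fixS K.π, ∫ x, v x ∂μ = ∫ x, f x * v x ∂μ) : ∀ᵐ x ∂μ, 0 ≤ f x := by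
  have h1 := hp f hf
  have h2 := hp _ (abs_fix K hf)
  have h3 : ∫ x, f x * (|f| : Lp ℝ 2 μ) x ∂μ ≤ ∫ x, f x * f x ∂μ := by
    refine integral_mono_ae (integrable_mul _ _) (integrable_mul _ _) ?_
    filter_upwards [Lp.coeFn_abs f] with x hx
    rw [hx]
    rcases le_total 0 (f x) with h | h
    · rw [abs_of_nonneg h]
    · rw [abs_of_nonpos h]
      nlinarith
  have h4 : 0 ≤ᵐ[μ] fun x => (|f| : Lp ℝ 2 μ) x - f x := by
    filter_upwards [Lp.coeFn_abs f] with x hx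
    rw [hx]
    exact sub_nonneg.2 (le_abs_self _)
  have h5 : Integrable (fun x => (|f| : Lp ℝ 2 μ) x - f x) μ :=
    (integrable_two _).sub (integrable_two _)
  have h6 : ∫ x, (|f| : Lp ℝ 2 μ) x - f x ∂μ = 0 := by
    apply le_antisymm _ (integral_nonneg_of_ae h4)
    rw [integral_sub (integrable_two _) (integrable_two _)]
    linarith
  filter_upwards [(integral_eq_zero_iff_of_nonneg_ae h4 h5).1 h6, Lp.coeFn_abs f] with x h7 h8
  rw [h8, Pi.zero_apply, sub_eq_zero] at h7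
  rw [← h7]
  exact abs_nonneg _

theorem car_perp {f : Lp ℝ 2 μ} (hf : f ∈ fixS K.π) (hZ : MeasurableSet {x | f x = 0})
    (hp : ∀ v ∈ fixS K.π, ∫ x, v x ∂μ = ∫ x, f x * v x ∂μ) {ζ : Lp ℝ 2 μ} (hζ : ζ ∈ Car f) :
    ζ ∈ (fixS K.π)ᗮ := by
  intro v hv
  have hw : cut hZ |v| ∈ fixS K.π := fun g => by rw [pi_cut K hf, abs_fix K hv g]
  have h1 : ∫ x, cut hZ |v| x ∂μ = 0 := by
    rw [hp _ hw]
    apply integral_eq_zero_of_ae
    filter_upwards [cut_ae hZ |v|] with x hx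
    rw [hx, Pi.zero_apply]
    by_cases h : f x = 0
    · rw [h, zero_mul]
    · rw [Set.indicator_of_notMem (show x ∉ {x | f x = 0} from h), mul_zero]
  have h2 : 0 ≤ᵐ[μ] fun x => cut hZ |v| x := by
    filter_upwards [cut_ae hZ |v|, Lp.coeFn_abs v] with x hx hy
    rw [hx, Pi.zero_apply]
    by_cases h : f x = 0
    · rw [Set.indicator_of_mem (show x ∈ {x | f x = 0} from h), hy]
      exact abs_nonneg _
    · rw [Set.indicator_of_notMem (show x ∉ {x | f x = 0} from h)]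
  rw [inner_eq]
  apply integral_eq_zero_of_ae
  filter_upwards [(integral_eq_zero_iff_of_nonneg_ae h2 (integrable_two _)).1 h1, cut_ae hZ |v|,
    Lp.coeFn_abs v, hζ.2] with x h3 h4 h5 h6
  rw [Pi.zero_apply]
  by_cases h : f x = 0
  · rw [h4, Set.indicator_of_mem (show x ∈ {x | f x = 0} from h), h5, Pi.zero_apply,
      abs_eq_zero] at h3
    rw [h3, zero_mul]
  · rw [h6 h, mul_zero]

end Koopman

theorem hb : HBStmt := by
  intro Γ _ _ X _ _ μ _ K h ξ hT hA hξ hU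
  obtain ⟨f, hf, hp⟩ := exists_proj K
  have h0 := proj_nonneg K hf hp
  by_cases hne : ∀ᵐ x ∂μ, f x ≠ 0
  · refine ⟨f, ?_, hf⟩
    filter_upwards [h0, hne] with x h1 h2
    exact lt_of_le_of_ne h1 h2.symm
  exfalso
  have hZ : MeasurableSet {x | f x = 0} :=
    (Lp.stronglyMeasurable f).measurable (measurableSet_singleton 0)
  have hc : cut hZ ξ ≠ 0 := by
    intro hc
    apply hne
    have h1 := cut_ae hZ ξ
    rw [hc] at h1
    filter_upwards [h1, hξ, Lp.coeFn_zero ℝ 2 μ] with x h2 h3 h4 hx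
    rw [h4, Set.indicator_of_mem (show x ∈ {x | f x = 0} from hx), Pi.zero_apply] at h2
    exact h3.ne h2
  have hn : 0 < ‖cut hZ ξ‖ := norm_pos_iff.2 hc
  have hcar : ‖cut hZ ξ‖⁻¹ • cut hZ ξ ∈ Car f := by
    refine ⟨by rw [norm_smul, norm_inv, norm_norm, inv_mul_cancel₀ hn.ne'], ?_⟩
    filter_upwards [Lp.coeFn_smul ‖cut hZ ξ‖⁻¹ (cut hZ ξ), cut_ae hZ ξ] with x h1 h2 hx
    rw [h1, Pi.smul_apply, h2, Set.indicator_of_notMem (show x ∉ {x | f x = 0} from hx), smul_zero]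
  have hU' : PropU K.π (‖cut hZ ξ‖⁻¹ • cut hZ ξ) h := by
    intro ε hε
    obtain ⟨Q, hQ, hQ2⟩ := hU (‖cut hZ ξ‖ * ε) (by positivity)
    refine ⟨Q, hQ, fun a => ?_⟩
    rw [map_smul, ← smul_sub, norm_smul, norm_inv, norm_norm, pi_cut K hf,
      inv_mul_le_iff₀ hn]
    exact (norm_cut_sub_le hZ _ _).trans (hQ2 a)
  obtain ⟨e, he⟩ := exists_surjective_nat Γ
  have key : ∀ k : ℕ, ∃ ζ ∈ Car f, ∀ i : Fin k, ‖K.π (e i) ζ - ζ‖ ≤ 1 / ((k : ℝ) + 1) :=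
    fun k => exists_almost K hf hA hcar hU' (fun i : Fin k => e i) Nat.one_div_pos_of_nat
  choose ζ hζ hζ2 using key
  refine propT_perp hT K.π ζ (fun k => (hζ k).1) (fun g => ?_) fun k => car_perp K hf hZ hp (hζ k)
  obtain ⟨n, rfl⟩ := he g
  refine squeeze_zero' (Eventually.of_forall fun k => norm_nonneg _) ?_
    tendsto_one_div_add_atTop_nhds_zero_nat
  filter_upwards [eventually_gt_atTop n] with k hk
  exact hζ2 k ⟨n, hk⟩

end Pool.Agent.MP_2b113a_an.H76
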