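import Mathlib
import Pool.Agent.MP_2b113a_an.H92.EntA

/-!
The chain rule for a density on a product of the line with a general space, and stability of the
distance to the product of the marginals.
-/

namespace Pool.Agent.MP_2b113a_an.H76

open MeasureTheory ProbabilityTheory Filter Topology
open scoped ENNReal NNReal Real
open Pool.Agent.MP_2b113a_an.H92 (Phie measurable_Phie Phie_chain sub_le_Phie lint_ne_zero
  mul_mul_inv_le)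

section Marginals

variable {β : Type} [MeasurableSpace β] (γ₁ : Measure ℝ) (γ₂ : Measure β)
  [IsProbabilityMeasure γ₁] [IsProbabilityMeasure γ₂]

/-- The first marginal density. -/
noncomputable def mp (x : ℝ × β → ℝ≥0∞) (s : ℝ) : ℝ≥0∞ := ∫⁻ t, x (s, t) ∂γ₂

/-- The second marginal density. -/
noncomputable def mq (x : ℝ × β → ℝ≥0∞) (t : β) : ℝ≥0∞ := ∫⁻ s, x (s, t) ∂γ₁

/-- The total mass. -/
noncomputable def mP (x : ℝ × β → ℝ≥0∞) : ℝ≥0∞ := ∫⁻ u, x u ∂γ₁.prod γ₂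

/-- The distance to the product of the marginals. -/
noncomputable def dA (x : ℝ × β → ℝ≥0∞) : ℝ≥0∞ :=
  ∫⁻ u, x u - mp γ₂ x u.1 * mq γ₁ x u.2 / mP γ₁ γ₂ x ∂γ₁.prod γ₂

/-- The mutual information. -/
noncomputable def mI (x : ℝ × β → ℝ≥0∞) : ℝ≥0∞ :=
  ∫⁻ u, Phie (x u) (mp γ₂ x u.1 * mq γ₁ x u.2 / mP γ₁ γ₂ x) ∂γ₁.prod γ₂

variable {x x' z : ℝ × β → ℝ≥0∞}

lemma measurable_mp (hx : Measurable x) : Measurable (mp γ₂ x) := by unfold mp; fun_prop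

lemma measurable_mq (hx : Measurable x) : Measurable (mq γ₁ x) := by unfold mq; fun_prop

omit [IsProbabilityMeasure γ₁] in
lemma lintegral_mp (hx : Measurable x) : ∫⁻ s, mp γ₂ x s ∂γ₁ = mP γ₁ γ₂ x :=
  (lintegral_prod _ hx.aemeasurable).symm

lemma lintegral_mq (hx : Measurable x) : ∫⁻ t, mq γ₁ x t ∂γ₂ = mP γ₁ γ₂ x :=
  (lintegral_prod_symm _ hx.aemeasurable).symm

lemma lintegral_mp_mq (hx : Measurable x) (hz : Measurable z) (c : ℝ≥0∞) :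
    ∫⁻ u : ℝ × β, mp γ₂ x u.1 * (mq γ₁ z u.2 * c) ∂γ₁.prod γ₂ =
      mP γ₁ γ₂ x * (mP γ₁ γ₂ z * c) := by
  have h1 := measurable_mp γ₂ hx
  have h2 := measurable_mq γ₁ hz
  rw [lintegral_prod_mul (f := mp γ₂ x) (g := fun t => mq γ₁ z t * c) (by fun_prop) (by fun_prop),
    lintegral_mul_const _ h2, lintegral_mp _ _ hx, lintegral_mq _ _ hz]

omit [IsProbabilityMeasure γ₁] in
lemma lintegral_mul_fst (hx : Measurable x) {g : ℝ → ℝ≥0∞} (hg : Measurable g) :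
    ∫⁻ u, x u * g u.1 ∂γ₁.prod γ₂ = ∫⁻ s, mp γ₂ x s * g s ∂γ₁ := by
  rw [lintegral_prod _ (by fun_prop)]
  exact lintegral_congr fun s => lintegral_mul_const (g s) (f := fun t => x (s, t)) (by fun_prop)

lemma ae_fin (hx : Measurable x) (h1 : mP γ₁ γ₂ x ≠ ∞) :
    ∀ᵐ u ∂γ₁.prod γ₂, x u ≠ ∞ ∧ mp γ₂ x u.1 ≠ ∞ ∧ mq γ₁ x u.2 ≠ ∞ := by
  have a1 := ae_lt_top hx h1
  have a2 := ae_lt_top (measurable_mp γ₂ hx) ((lintegral_mp γ₁ γ₂ hx).symm ▸ h1)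
  have a3 := ae_lt_top (measurable_mq γ₁ hx) ((lintegral_mq γ₁ γ₂ hx).symm ▸ h1)
  filter_upwards [a1, Measure.quasiMeasurePreserving_fst.ae a2,
    Measure.quasiMeasurePreserving_snd.ae a3] with u b1 b2 b3
  exact ⟨b1.ne, b2.ne, b3.ne⟩

/-- The chain rule. -/
lemma chain (hx : Measurable x) (h0 : ∀ u, x u ≠ 0) (h1 : mP γ₁ γ₂ x ≠ ∞) :
    mI γ₁ γ₂ x + ∫⁻ s, Phie (mp γ₂ x s) (mP γ₁ γ₂ x) ∂γ₁ ≤
      ∫⁻ u, Phie (x u) (mq γ₁ x u.2) ∂γ₁.prod γ₂ := by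
  have m1 := measurable_mp γ₂ hx
  have m2 := measurable_mq γ₁ hx
  have p0 : ∀ s, mp γ₂ x s ≠ 0 := fun s => lint_ne_zero _ (by fun_prop) fun t => h0 _
  have q0 : ∀ t, mq γ₁ x t ≠ 0 := fun t => lint_ne_zero _ (by fun_prop) fun s => h0 _
  have P0 : mP γ₁ γ₂ x ≠ 0 := lint_ne_zero _ hx h0
  have key := lintegral_congr_ae (μ := γ₁.prod γ₂) ((ae_fin γ₁ γ₂ hx h1).mono fun u hu =>
    Phie_chain (h0 u) hu.1 (p0 u.1) hu.2.1 (q0 u.2) hu.2.2 P0 h1)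
  rw [lintegral_add_left (by fun_prop), lintegral_add_left (by fun_prop),
    lintegral_add_left (by fun_prop), lintegral_add_left (by fun_prop),
    lintegral_add_left (by fun_prop), lintegral_mp_mq _ _ hx hx,
    lintegral_mul_fst _ _ hx (g := fun s => (mp γ₂ x s)⁻¹ * Phie (mp γ₂ x s) (mP γ₁ γ₂ x))
      (by fun_prop),
    lintegral_mul_fst _ _ hx (g := fun s => (mp γ₂ x s)⁻¹ * mP γ₁ γ₂ x) (by fun_prop)] at key
  have e1 : ∫⁻ u : ℝ × β, mq γ₁ x u.2 ∂γ₁.prod γ₂ = mP γ₁ γ₂ x := by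
    rw [lintegral_prod_symm _ (by fun_prop), ← lintegral_mq _ _ hx]; simp
  have e2 : ∫⁻ s, mp γ₂ x s * ((mp γ₂ x s)⁻¹ * Phie (mp γ₂ x s) (mP γ₁ γ₂ x)) ∂γ₁ =
      ∫⁻ s, Phie (mp γ₂ x s) (mP γ₁ γ₂ x) ∂γ₁ := by
    refine lintegral_congr_ae ?_
    filter_upwards [ae_lt_top m1 ((lintegral_mp γ₁ γ₂ hx).symm ▸ h1)] with s hs
    rw [← mul_assoc, ENNReal.mul_inv_cancel (p0 s) hs.ne, one_mul]
  have e3 : ∫⁻ s, mp γ₂ x s * ((mp γ₂ x s)⁻¹ * mP γ₁ γ₂ x) ∂γ₁ ≤ mP γ₁ γ₂ x := by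
    refine (lintegral_mono fun s => ?_).trans (le_of_eq (by simp : ∫⁻ _, mP γ₁ γ₂ x ∂γ₁ = _))
    rw [← mul_assoc]
    exact (mul_le_mul_left (ENNReal.mul_inv_le_one _) _).trans (one_mul _).le
  rw [e1, e2] at key
  refine (ENNReal.add_le_add_iff_right h1).1 ((ENNReal.add_le_add_iff_right h1).1 ?_)
  exact key.le.trans (add_le_add (add_le_add le_rfl e3) (mul_mul_inv_le _))

omit [IsProbabilityMeasure γ₁] [IsProbabilityMeasure γ₂] in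
lemma dA_le (x : ℝ × β → ℝ≥0∞) : dA γ₁ γ₂ x ≤ mP γ₁ γ₂ x := lintegral_mono fun _ => tsub_le_self

/-- A form of Pinsker's inequality. -/
lemma dA_le_mI (hx : Measurable x) (h0 : ∀ u, x u ≠ 0) (h1 : mP γ₁ γ₂ x ≠ ∞) {η : ℝ≥0}
    (hη : η ≠ 0) (hη1 : η ≤ 1) :
    dA γ₁ γ₂ x - η * mP γ₁ γ₂ x ≤ mI γ₁ γ₂ x * (η⁻¹ : ℝ≥0) := by
  have m1 := measurable_mp γ₂ hx
  have m2 := measurable_mq γ₁ hx
  have p0 : ∀ s, mp γ₂ x s ≠ 0 := fun s => lint_ne_zero _ (by fun_prop) fun t => h0 _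
  have q0 : ∀ t, mq γ₁ x t ≠ 0 := fun t => lint_ne_zero _ (by fun_prop) fun s => h0 _
  rw [tsub_le_iff_right]
  refine (lintegral_mono_ae ((ae_fin γ₁ γ₂ hx h1).mono fun u hu => sub_le_Phie hu.1
    (ENNReal.div_ne_zero.2 ⟨mul_ne_zero (p0 _) (q0 _), h1⟩) hη hη1)).trans ?_
  rw [lintegral_add_left (by fun_prop), lintegral_mul_const _ (by fun_prop),
    lintegral_const_mul _ (by fun_prop)]
  refine add_le_add le_rfl (mul_le_mul_right ?_ _)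
  simp_rw [div_eq_mul_inv, mul_assoc]
  rw [lintegral_mp_mq _ _ hx hx]
  exact mul_mul_inv_le _

omit [IsProbabilityMeasure γ₁] [IsProbabilityMeasure γ₂] in
lemma mP_le (hx' : Measurable x') (h : ∀ u, x u ≤ x' u + z u) :
    mP γ₁ γ₂ x ≤ mP γ₁ γ₂ x' + mP γ₁ γ₂ z :=
  (lintegral_mono h).trans (lintegral_add_left hx' _).le

/-- Stability of the distance to the product of the marginals. -/
lemma dA_stab (hx : Measurable x) (hx' : Measurable x') (hz : Measurable z)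
    (h : ∀ u, x u ≤ x' u + z u) (h' : ∀ u, x' u ≤ x u + z u) (P0 : mP γ₁ γ₂ x ≠ 0)
    (P1 : mP γ₁ γ₂ x ≠ ∞) : dA γ₁ γ₂ x ≤ dA γ₁ γ₂ x' + 4 * mP γ₁ γ₂ z := by
  have m1 := measurable_mp γ₂ hx
  have m2 := measurable_mq γ₁ hx
  have m3 := measurable_mp γ₂ hx'
  have m4 := measurable_mq γ₁ hx'
  have m5 := measurable_mp γ₂ hz
  have m6 := measurable_mq γ₁ hz
  have hp : ∀ s, mp γ₂ x' s ≤ mp γ₂ x s + mp γ₂ z s := fun s =>
    (lintegral_mono fun t => h' _).trans (lintegral_add_left (by fun_prop) _).le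
  have hq : ∀ t, mq γ₁ x' t ≤ mq γ₁ x t + mq γ₁ z t := fun t =>
    (lintegral_mono fun s => h' _).trans (lintegral_add_left (by fun_prop) _).le
  have hP := mP_le γ₁ γ₂ hx' h
  set P := mP γ₁ γ₂ x with hPd
  set P' := mP γ₁ γ₂ x' with hPd'
  set Z := mP γ₁ γ₂ z with hZd
  have hi : P'⁻¹ ≤ P⁻¹ + P'⁻¹ * P⁻¹ * Z :=
    calc P'⁻¹ = P'⁻¹ * P⁻¹ * P := by rw [mul_assoc, ENNReal.inv_mul_cancel P0 P1, mul_one]
      _ ≤ P'⁻¹ * P⁻¹ * (P' + Z) := mul_le_mul_right hP _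
      _ = P⁻¹ * (P' * P'⁻¹) + P'⁻¹ * P⁻¹ * Z := by ring
      _ ≤ P⁻¹ * 1 + _ := add_le_add (mul_le_mul_right (ENNReal.mul_inv_le_one _) _) le_rfl
      _ = _ := by rw [mul_one]
  have pt : ∀ u : ℝ × β, x u - mp γ₂ x u.1 * mq γ₁ x u.2 / P ≤
      (x' u - mp γ₂ x' u.1 * mq γ₁ x' u.2 / P') + (z u + mp γ₂ z u.1 * (mq γ₁ x' u.2 * P'⁻¹) +
        mp γ₂ x u.1 * (mq γ₁ x' u.2 * (P'⁻¹ * P⁻¹ * Z)) + mp γ₂ x u.1 * (mq γ₁ z u.2 * P⁻¹)) :=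
    fun u => by
      rw [tsub_le_iff_right]
      have a1 := hp u.1
      have a2 := hq u.2
      have a3 : x' u ≤ (x' u - mp γ₂ x' u.1 * mq γ₁ x' u.2 / P') +
          mp γ₂ x' u.1 * mq γ₁ x' u.2 / P' := le_tsub_add
      generalize x' u - mp γ₂ x' u.1 * mq γ₁ x' u.2 / P' = d at a3 ⊢
      generalize mp γ₂ x u.1 = p at *
      generalize mp γ₂ x' u.1 = p' at *
      generalize mp γ₂ z u.1 = pz at *
      generalize mq γ₁ x u.2 = q at *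
      generalize mq γ₁ x' u.2 = q' at *
      generalize mq γ₁ z u.2 = qz at *
      simp only [div_eq_mul_inv] at *
      calc x u ≤ d + p' * q' * P'⁻¹ + z u := (h u).trans (add_le_add a3 le_rfl)
        _ ≤ d + (p + pz) * q' * P'⁻¹ + z u := by gcongr
        _ = d + (p * q' * P'⁻¹ + pz * q' * P'⁻¹) + z u := by ring
        _ ≤ d + (p * q' * (P⁻¹ + P'⁻¹ * P⁻¹ * Z) + pz * q' * P'⁻¹) + z u := by gcongr
        _ = d + (p * q' * P⁻¹ + p * q' * (P'⁻¹ * P⁻¹ * Z) + pz * q' * P'⁻¹) + z u := by ring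
        _ ≤ d + (p * (q + qz) * P⁻¹ + p * q' * (P'⁻¹ * P⁻¹ * Z) + pz * q' * P'⁻¹) + z u := by
          gcongr
        _ = _ := by ring
  refine (lintegral_mono pt).trans ?_
  rw [lintegral_add_left (by fun_prop), lintegral_add_left (by fun_prop),
    lintegral_add_left (by fun_prop), lintegral_add_left (by fun_prop), lintegral_mp_mq _ _ hz hx',
    lintegral_mp_mq _ _ hx hx', lintegral_mp_mq _ _ hx hz]
  refine add_le_add le_rfl ?_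
  have b1 := ENNReal.mul_inv_le_one P
  have b2 := ENNReal.mul_inv_le_one P'
  calc Z + Z * (P' * P'⁻¹) + P * (P' * (P'⁻¹ * P⁻¹ * Z)) + P * (Z * P⁻¹)
      = Z + Z * (P' * P'⁻¹) + (P * P⁻¹) * (P' * P'⁻¹) * Z + (P * P⁻¹) * Z := by ring
    _ ≤ Z + Z * 1 + 1 * 1 * Z + 1 * Z := by gcongr
    _ = 4 * Z := by ring

end Marginals

end Pool.Agent.MP_2b113a_an.H76
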