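import Mathlib
import Pool.Agent.MP_2b113a_an.C3.Iface
import Pool.Agent.MP_2b113a_an.H92.Ent
import Pool.Agent.MP_2b113a_an.H76.Ent3A

/-!
Entropy along the orbits of a nonsingular flow of three-space: chain rule, bound and telescoping.
-/

namespace Pool.Agent.MP_2b113a_an.H76

open MeasureTheory ProbabilityTheory Filter Topology Pool.Agent.MP_2b113a_an.C3
open scoped ENNReal NNReal Real
open Pool.Agent.MP_2b113a_an.H92 (Phie measurable_Phie Phie_mul Phie_le gauss_shift gs telescope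
  reindex)

variable {Ω : Type} [MeasurableSpace Ω] {M : Measure Ω} (F : NSFlow Ω M)

/-- The planar Gaussian increment. -/
noncomputable abbrev g2 (b b' c c' : ℝ≥0) : Measure (ℝ × ℝ) := N2 (b' - b) (c' - c)

lemma mp_tl {X : Ω → ℝ≥0∞} (hX : Measurable X) (a : ℝ≥0) {b b' c c' : ℝ≥0} (hb : b ≤ b')
    (hc : c ≤ c') (y : Ω) (s : ℝ) :
    mp (g2 b b' c c') (F.tl (F.cv X (N3 a b c)) y) s = F.tl (F.cv X (N3 a b' c')) y (s, 0) := by
  have := F.cv_cv hX a b c 0 (b' - b) (c' - c)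
  rw [add_zero, add_tsub_cancel_of_le hb, add_tsub_cancel_of_le hc] at this
  rw [← this, F.tl_cv, lintegral_N3_right _ _ (by fun_prop), mp]
  simp

lemma mq_tl {X : Ω → ℝ≥0∞} (hX : Measurable X) {a a' : ℝ≥0} (ha : a ≤ a') (b c : ℝ≥0) (y : Ω)
    (t : ℝ × ℝ) :
    mq (gs a a') (F.tl (F.cv X (N3 a b c)) y) t = F.tl (F.cv X (N3 a' b c)) y (0, t) := by
  have := F.cv_cv hX a b c (a' - a) 0 0
  rw [add_zero, add_zero, add_tsub_cancel_of_le ha] at this
  rw [← this, F.tl_cv, lintegral_N3_left _ (by fun_prop), mq]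
  simp

lemma mP_tl' (X : Ω → ℝ≥0∞) (a a' b b' c c' : ℝ≥0) (y : Ω) :
    mP (gs a a') (g2 b b' c c') (F.tl X y) = F.cv X (N3 (a' - a) (b' - b) (c' - c)) y := rfl

lemma mP_tl {X : Ω → ℝ≥0∞} (hX : Measurable X) {a a' b b' c c' : ℝ≥0} (ha : a ≤ a') (hb : b ≤ b')
    (hc : c ≤ c') (y : Ω) :
    mP (gs a a') (g2 b b' c c') (F.tl (F.cv X (N3 a b c)) y) = F.cv X (N3 a' b' c') y := by
  rw [mP_tl', F.cv_cv hX, add_tsub_cancel_of_le ha, add_tsub_cancel_of_le hb,
    add_tsub_cancel_of_le hc]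

lemma dep_eq {X : Ω → ℝ≥0∞} (hX : Measurable X) {a a' b b' c c' : ℝ≥0} (ha : a ≤ a')
    (hb : b ≤ b') (hc : c ≤ c') (y : Ω) :
    F.dep X a a' b b' c c' y = dA (gs a a') (g2 b b' c c') (F.tl (F.cv X (N3 a b c)) y) := by
  simp only [dA, mp_tl F hX a hb hc, mq_tl F hX ha, mP_tl F hX ha hb hc]
  rfl

@[fun_prop] lemma measurable_hh (a b c : ℝ≥0) : Measurable (F.hh a b c) :=
  F.measurable_cv measurable_const _

lemma measurable_dep {X : Ω → ℝ≥0∞} (hX : Measurable X) (a a' b b' c c' : ℝ≥0) :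
    Measurable (F.dep X a a' b b' c c') := by
  unfold NSFlow.dep; fun_prop

lemma tl_hh_ne_zero (a b c : ℝ≥0) (y : Ω) (u : T3) : F.tl (F.hh a b c) y u ≠ 0 :=
  mul_ne_zero (F.cv_one_ne_zero _ _) (F.W_ne_zero _ _)

/-- The information on the first displacement, at a base point. -/
noncomputable def GA (a a' b c : ℝ≥0) (y : Ω) : ℝ≥0∞ :=
  ∫⁻ s, Phie (F.tl (F.hh a b c) y (s, 0)) (F.hh a' b c y) ∂gs a a'

lemma measurable_GA (a a' b c : ℝ≥0) : Measurable (GA F a a' b c) := by unfold GA; fun_prop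

/-- The mutual information of the first displacement and the other two, at a base point. -/
noncomputable def GD (a a' b b' c c' : ℝ≥0) (y : Ω) : ℝ≥0∞ :=
  mI (gs a a') (g2 b b' c c') (F.tl (F.hh a b c) y)

lemma measurable_GD (a a' b b' c c' : ℝ≥0) : Measurable (GD F a a' b b' c c') := by
  unfold GD mI mp mq mP; fun_prop

lemma tl_hh_le {a a' : ℝ≥0} (ha : a ≠ 0) (h : a < a') {r : ℝ} (hr : (a' : ℝ) ≤ r * a)
    (b c : ℝ≥0) (y : Ω) (s : ℝ) : F.tl (F.hh a b c) y (s, 0) ≤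
      ENNReal.ofReal (Real.exp (r + s ^ 2 / (a' - a))) * F.hh a' b c y := by
  rw [NSFlow.hh, F.tl_cv, NSFlow.hh, NSFlow.cv, N3, N3, lintegral_prod_symm _ (by fun_prop),
    lintegral_prod_symm _ (by fun_prop), ← lintegral_const_mul' _ _ ENNReal.ofReal_ne_top]
  refine lintegral_mono fun t => ?_
  have := gauss_shift ha h hr s (f := fun z => F.tl (fun _ => 1) y (z, t)) (by fun_prop)
  simpa using this

variable [IsProbabilityMeasure M]

lemma lintegral_hh (a b c : ℝ≥0) : ∫⁻ y, F.hh a b c y ∂M = 1 := by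
  rw [NSFlow.hh, F.lintegral_cv_prob measurable_const]; simp

lemma hh_lt_top (a b c : ℝ≥0) : ∀ᵐ y ∂M, F.hh a b c y < ∞ :=
  ae_lt_top (by fun_prop) (by rw [lintegral_hh]; simp)

lemma GA_le {a a' : ℝ≥0} (ha : a ≠ 0) (h : a < a') {r : ℝ≥0} (hr : a' ≤ r * a) (b c : ℝ≥0) :
    ∫⁻ y, GA F a a' b c y ∂M ≤ (r + 2 : ℝ≥0) := by
  have a3 : (0 : ℝ) < a' - a := sub_pos.2 h
  have e : ∫⁻ s, ENNReal.ofReal (r + s ^ 2 / (a' - a)) ∂gs a a' = r + 1 := by
    have e1 : ∀ s : ℝ, ENNReal.ofReal (r + s ^ 2 / (a' - a)) =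
        r + ENNReal.ofReal ((s - 0) ^ 2) * ((a' - a : ℝ≥0) : ℝ≥0∞)⁻¹ := fun s => by
      rw [ENNReal.ofReal_add r.coe_nonneg (by positivity), ENNReal.ofReal_div_of_pos a3,
        ← NNReal.coe_sub h.le, ENNReal.ofReal_coe_nnreal, ENNReal.ofReal_coe_nnreal, sub_zero,
        div_eq_mul_inv]
    simp_rw [e1]
    rw [lintegral_add_left measurable_const, lintegral_mul_const _ (by fun_prop),
      lintegral_sq_gauss, ENNReal.mul_inv_cancel (by simpa [tsub_eq_zero_iff_le] using h)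
        ENNReal.coe_ne_top]
    simp
  unfold GA
  rw [lintegral_lintegral_swap (by fun_prop)]
  calc _ ≤ ∫⁻ s, ∫⁻ y, ENNReal.ofReal (r + s ^ 2 / (a' - a)) * F.tl (F.hh a b c) y (s, 0) +
        F.hh a' b c y ∂M ∂gs a a' :=
        lintegral_mono fun s => lintegral_mono fun y =>
          Phie_le (by positivity) (tl_hh_le F ha h (by exact_mod_cast hr) b c y s)
    _ = ∫⁻ s, ENNReal.ofReal (r + s ^ 2 / (a' - a)) + 1 ∂gs a a' := by
        refine lintegral_congr fun s => ?_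
        rw [lintegral_add_left (by fun_prop), lintegral_const_mul _ (by fun_prop),
          F.lintegral_tl (by fun_prop), lintegral_hh, lintegral_hh, mul_one]
    _ = _ := by
        rw [lintegral_add_right _ measurable_const, e]
        simp [add_assoc, one_add_one_eq_two]

lemma GD_chain {a a' b b' c c' : ℝ≥0} (ha : a ≤ a') (hb : b ≤ b') (hc : c ≤ c') :
    ∫⁻ y, GD F a a' b b' c c' y ∂M + ∫⁻ y, GA F a a' b' c' y ∂M ≤
      ∫⁻ y, GA F a a' b c y ∂M := by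
  rw [← lintegral_add_left (measurable_GD F a a' b b' c c')]
  have h1 : ∀ᵐ y ∂M, GD F a a' b b' c c' y + GA F a a' b' c' y ≤
      ∫⁻ t, GA F a a' b c (F.τ (0, t) y) * F.W (0, t) y ∂g2 b b' c c' := by
    filter_upwards [hh_lt_top F a' b' c'] with y hy
    have e := mP_tl F (X := fun _ => 1) measurable_const ha hb hc y
    have := chain (gs a a') (g2 b b' c c') (x := F.tl (F.hh a b c) y) (by fun_prop)
      (tl_hh_ne_zero F a b c y) (e ▸ hy.ne)
    simp only [NSFlow.hh, e, mp_tl F measurable_const a hb hc, mq_tl F measurable_const ha] at this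
    refine this.trans (le_of_eq ?_)
    rw [lintegral_prod_symm _ (by fun_prop)]
    refine lintegral_congr fun t => ?_
    rw [GA, ← lintegral_mul_const' _ _ (F.W_ne_top _ _)]
    refine lintegral_congr fun s => ?_
    rw [← Phie_mul _ _ (F.W_ne_zero _ _) (F.W_ne_top _ _), F.tl_τ]
    simp [NSFlow.hh, NSFlow.tl]
  refine (lintegral_mono_ae h1).trans (le_of_eq ?_)
  have m := measurable_GA F a a' b c
  rw [lintegral_lintegral_swap (by fun_prop)]
  simp [F.inv _ _ m]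

lemma GA_anti {a a' b b' c c' : ℝ≥0} (ha : a ≤ a') (hb : b ≤ b') (hc : c ≤ c') :
    ∫⁻ y, GA F a a' b' c' y ∂M ≤ ∫⁻ y, GA F a a' b c y ∂M :=
  le_add_self.trans (GD_chain F ha hb hc)

lemma GD_sum {κ : ℝ≥0} (hκ : 1 < κ) {K : ℕ} (hK : K ≠ 0) {n N T₀ : ℕ} (hN : N ≤ T₀) :
    ∑ T ∈ Finset.range n, ∑ c ∈ Finset.range N, ∫⁻ y, GD F (κ ^ (T₀ + T + c))
      (κ ^ (T₀ + T + c + K)) (κ ^ (T₀ + T)) (κ ^ (T₀ + T + K)) (κ ^ (T₀ + T - c))
        (κ ^ (T₀ + T - c + K)) y ∂M ≤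
        (n + N) * ((2 * K : ℕ) * (κ ^ K + 2 : ℝ≥0)) := by
  refine le_trans (le_of_eq ?_) (reindex (D := fun i j => ∫⁻ y, GD F (κ ^ i) (κ ^ (i + K))
    (κ ^ ((i + j) / 2)) (κ ^ ((i + j) / 2 + K)) (κ ^ j) (κ ^ (j + K)) y ∂M)
    (fun i R => ?_) (n := n) hN)
  · refine Finset.sum_congr rfl fun T _ => Finset.sum_congr rfl fun c hc => ?_
    have := Finset.mem_range.1 hc
    rw [show (T₀ + T + c + (T₀ + T - c)) / 2 = T₀ + T by omega]
  have mono : ∀ {i j : ℕ}, i ≤ j → κ ^ i ≤ κ ^ j := fun h => pow_le_pow_right₀ hκ.le h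
  refine telescope (α := fun j => ∫⁻ y, GA F (κ ^ i) (κ ^ (i + K)) (κ ^ ((i + j) / 2)) (κ ^ j) y ∂M)
    (fun j => ?_) (fun j => ?_) R
  · exact GA_le F (pow_ne_zero _ (zero_lt_one.trans hκ).ne') (pow_lt_pow_right₀ hκ (by omega))
      (by rw [pow_add, mul_comm]) _ _
  · refine le_trans (add_le_add le_rfl ?_)
      (GD_chain F (mono (by omega)) (mono (by omega)) (mono (by omega)))
    exact GA_anti F (mono (by omega)) (mono (by omega)) (mono (by omega))

end Pool.Agent.MP_2b113a_an.H76
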